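import Pool.Agent.H94.G5T.M25
import Pool.Agent.H94.G5T.M53
import Pool.Agent.H94.G5T.M74
import Pool.Agent.H94.G5T.M79
import Pool.Agent.H94.G5T.M81

/-!
# G4 C JNv: the jets of a smooth family in the affine chart `nv v`

`jet_nv`: the `m`-jet of the curve `crv / ⟨v, crv⟩` is the jet of `t ↦ nv v (Φ (s + t) z)`.
-/

set_option autoImplicit false

open Topology Filter Metric

namespace Pool.Agent.G4.C

open Pool.Agent.H36.BP (EN fs wd)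
open Pool.Agent.H14.PP (IsCone)
open Pool.Agent.H62.EF (MN pr)
open Pool.Agent.AD (Vd Chart Charts)
open Pool.Agent.TG (TMap Lat Str ms tl Gd)
open Pool.Agent.G3.C

variable {N k : ℕ} {X : Set (EN N)} {Λ : AddSubgroup (Vd (k + 1))} {u : EN N → Vd (k + 1)} {ν a b c : Vd (k + 1)} {m : ℕ} {ρ : ℝ}

private theorem vpol_jet (v : Fin (N + 1) → Fin (m + 1) → ℂ) (i : Fin (N + 1)) (j : Fin (m + 1)) : jt m (vpol v) j i = v i j := by
  have h1 := iter_coord (vpol_analytic v) i j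
  show iteratedDeriv j (vpol v) 0 i = v i j
  rw [← h1]
  exact iteratedDeriv_pol (v i) j

theorem jet_nv {Φ : ℝ → ℂ → MN N} {χ : Chart (k + 2) X} {w : ℕ → ℝ → ℂ → ℂ} {s : ℝ} {z : ℂ} {r : ℝ} (B : Box X Λ u a ν b Φ χ c ρ w s z r) {v : EN N}
    (hv : (inner ℂ v (χ.σ (cz b ν a c ρ (w 0 s z) s z)) : ℂ) ≠ 0) (m : ℕ) (j : Fin (m + 1)) :
    jt m (fun t => (inner ℂ v (crv b ν a χ c ρ (Jt m w s z) t) : ℂ)⁻¹ • crv b ν a χ c ρ (Jt m w s z) t) j = iteratedDeriv j (fun t : ℝ => nv v (Φ (s + t) z)) 0 := by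
  have hs : s ∈ Set.Ioo (s - r) (s + r) := ⟨by linarith [B.pos], by linarith [B.pos]⟩
  have hz : z ∈ ball z r := mem_ball_self B.pos
  have hnh : Set.Ioo (s - r) (s + r) ×ˢ ball z r ∈ 𝓝 ((s, z) : ℝ × ℂ) := (isOpen_Ioo.prod isOpen_ball).mem_nhds ⟨hs, hz⟩
  have hcz0 : cz b ν a c ρ (w 0 s z) s z ∈ ball (0 : Vd (k + 2)) 2 := B.mem s hs z hz
  -- the linear form is not `0` near `(s, z)`
  have hσc : ContinuousAt (fun q : ℝ × ℂ => (inner ℂ v (χ.σ (cz b ν a c ρ (w 0 q.1 q.2) q.1 q.2)) : ℂ)) (s, z) := by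
    have hw : ContinuousAt (fun q : ℝ × ℂ => w 0 q.1 q.2) (s, z) := (B.jet.cont 0).continuousAt hnh
    have hre : ContinuousAt (fun q : ℝ × ℂ => (q.1 : ℂ)) (s, z) := by fun_prop
    have h1 : ContinuousAt (fun p : ℂ × ℂ × ℂ => cz b ν a c ρ p.1 p.2.1 p.2.2) (w 0 s z, (s : ℂ), z) :=
      (cz_analytic analyticAt_fst (analyticAt_fst.fun_comp analyticAt_snd) (analyticAt_snd.fun_comp analyticAt_snd)).continuousAt
    have h2 : ContinuousAt (fun q : ℝ × ℂ => cz b ν a c ρ (w 0 q.1 q.2) q.1 q.2) (s, z) :=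
      ContinuousAt.comp (g := fun p : ℂ × ℂ × ℂ => cz b ν a c ρ p.1 p.2.1 p.2.2) (f := fun q : ℝ × ℂ => (w 0 q.1 q.2, (q.1 : ℂ), q.2)) h1
        (hw.prodMk (hre.prodMk continuousAt_snd))
    have h3 : ContinuousAt (fun q : ℝ × ℂ => χ.σ (cz b ν a c ρ (w 0 q.1 q.2) q.1 q.2)) (s, z) :=
      ContinuousAt.comp (g := χ.σ) (f := fun q : ℝ × ℂ => cz b ν a c ρ (w 0 q.1 q.2) q.1 q.2) (χ.σ_an _ hcz0).continuousAt h2
    exact ContinuousAt.comp (g := fun x : EN N => (inner ℂ v x : ℂ)) (f := fun q : ℝ × ℂ => χ.σ (cz b ν a c ρ (w 0 q.1 q.2) q.1 q.2))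
      (innerSL ℂ v).continuous.continuousAt h3
  obtain ⟨r₁, hr₁, hne⟩ := Metric.eventually_nhds_iff_ball.1 (hσc.eventually_ne hv)
  obtain ⟨r', hr'd⟩ : ∃ r', r' = min r r₁ := ⟨_, rfl⟩
  have hr' : 0 < r' := by rw [hr'd]; exact lt_min B.pos hr₁
  have hr'r : r' ≤ r := by rw [hr'd]; exact min_le_left _ _
  have hr'r₁ : r' ≤ r₁ := by rw [hr'd]; exact min_le_right _ _
  have hI : Set.Ioo (s - r') (s + r') ⊆ Set.Ioo (s - r) (s + r) := Set.Ioo_subset_Ioo (by linarith) (by linarith)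
  have hD : ball z r' ⊆ ball z r := ball_subset_ball hr'r
  have hJ : JetFam w (Set.Ioo (s - r') (s + r')) (ball z r') :=
    ⟨fun j s hs z hz => B.jet.der j s (hI hs) z (hD hz), fun j => (B.jet.cont j).mono (Set.prod_mono hI hD), fun j s hs => (B.jet.hol j s (hI hs)).mono hD⟩
  have hne' : ∀ t ∈ Set.Ioo (s - r') (s + r'), ∀ y ∈ ball z r', (inner ℂ v (χ.σ (cz b ν a c ρ (w 0 t y) t y)) : ℂ) ≠ 0 := by
    intro t ht y hy
    refine hne (t, y) ?_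
    rw [mem_ball, Prod.dist_eq]
    refine max_lt ?_ ((mem_ball.1 hy).trans_le hr'r₁)
    rw [Real.dist_eq, abs_lt]
    constructor <;> linarith [ht.1, ht.2]
  -- the coordinates
  obtain ⟨O, hO⟩ : ∃ O : Set (ℂ × ℂ × (Unit → ℂ)), O = {p | cz b ν a c ρ (p.2.2 ()) p.1 p.2.1 ∈ ball (0 : Vd (k + 2)) 2 ∧
      (inner ℂ v (χ.σ (cz b ν a c ρ (p.2.2 ()) p.1 p.2.1)) : ℂ) ≠ 0} := ⟨_, rfl⟩
  have hV : ∀ i : Fin (N + 1), ∃ V : ℕ → ℝ → ℂ → ℂ, JetFam V (Set.Ioo (s - r') (s + r')) (ball z r') ∧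
      ∀ t ∈ Set.Ioo (s - r') (s + r'), ∀ y ∈ ball z r', V 0 t y = (inner ℂ v (χ.σ (cz b ν a c ρ (w 0 t y) t y)) : ℂ)⁻¹ * χ.σ (cz b ν a c ρ (w 0 t y) t y) i := by
    intro i
    refine JetFam.comp (ι := Unit) (f := fun _ => w) isOpen_Ioo isOpen_ball (fun _ => hJ) (O := O)
      (Q := fun p => (inner ℂ v (χ.σ (cz b ν a c ρ (p.2.2 ()) p.1 p.2.1)) : ℂ)⁻¹ * χ.σ (cz b ν a c ρ (p.2.2 ()) p.1 p.2.1) i) ?_ ?_
    · intro p hp
      rw [hO] at hp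
      have h1 : AnalyticAt ℂ (fun p : ℂ × ℂ × (Unit → ℂ) => cz b ν a c ρ (p.2.2 ()) p.1 p.2.1) p := by
        refine cz_analytic ?_ analyticAt_fst (AnalyticAt.fun_comp (g := Prod.fst) analyticAt_fst analyticAt_snd)
        have h2 : AnalyticAt ℂ (fun p : ℂ × ℂ × (Unit → ℂ) => p.2.2) p := AnalyticAt.fun_comp (g := Prod.snd) analyticAt_snd analyticAt_snd
        exact analyticAt_pi_iff.1 h2 ()
      have h2 : AnalyticAt ℂ (fun p : ℂ × ℂ × (Unit → ℂ) => χ.σ (cz b ν a c ρ (p.2.2 ()) p.1 p.2.1)) p :=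
        AnalyticAt.fun_comp (g := χ.σ) (f := fun p : ℂ × ℂ × (Unit → ℂ) => cz b ν a c ρ (p.2.2 ()) p.1 p.2.1) (χ.σ_an _ hp.1) h1
      have h3 : AnalyticAt ℂ (fun p : ℂ × ℂ × (Unit → ℂ) => (inner ℂ v (χ.σ (cz b ν a c ρ (p.2.2 ()) p.1 p.2.1)) : ℂ)) p :=
        AnalyticAt.fun_comp (g := fun x : EN N => (inner ℂ v x : ℂ)) ((innerSL ℂ v).analyticAt _) h2
      have h4 : AnalyticAt ℂ (fun p : ℂ × ℂ × (Unit → ℂ) => χ.σ (cz b ν a c ρ (p.2.2 ()) p.1 p.2.1) i) p :=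
        AnalyticAt.fun_comp (g := fun x : EN N => x i) ((EuclideanSpace.proj (𝕜 := ℂ) i : EN N →L[ℂ] ℂ).analyticAt _) h2
      exact (h3.inv hp.2).mul h4
    · intro t ht y hy
      rw [hO]
      exact ⟨B.mem t (hI ht) y (hD hy), hne' t ht y hy⟩
  choose V hVJ hV0 using hV
  have hzr' : z ∈ ball z r' := mem_ball_self hr'
  -- the real curve
  have hnv : ∀ t : ℝ, t ∈ Set.Ioo (-r') r' → nv v (Φ (s + t) z) =
      (inner ℂ v (psi b ν a χ c ρ w s z t) : ℂ)⁻¹ • psi b ν a χ c ρ w s z t ∧ nv v (Φ (s + t) z) = WithLp.toLp 2 fun i => V i 0 (s + t) z := by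
    intro t ht
    have ht' : s + t ∈ Set.Ioo (s - r') (s + r') := ⟨by linarith [ht.1], by linarith [ht.2]⟩
    have h1 : nv v (Φ (s + t) z) = (inner ℂ v (psi b ν a χ c ρ w s z t) : ℂ)⁻¹ • psi b ν a χ c ρ w s z t := by
      rw [B.eq _ (hI ht') z hz, nv_pr (hne' _ ht' z hzr')]
      rfl
    refine ⟨h1, ?_⟩
    rw [h1]
    ext i
    show (inner ℂ v (psi b ν a χ c ρ w s z t) : ℂ)⁻¹ * psi b ν a χ c ρ w s z t i = V i 0 (s + t) z
    rw [hV0 i _ ht' z hzr']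
    rfl
  have hiter : iteratedDeriv j (fun t : ℝ => nv v (Φ (s + t) z)) 0 = WithLp.toLp 2 fun i => V i j (s + 0) z := by
    refine iter_chain (I := Set.Ioo (-r') r') isOpen_Ioo (H := fun j t => (WithLp.toLp 2 fun i => V i j (s + t) z : EN N)) (fun j t ht => ?_) (fun t ht => (hnv t ht).2) j 0
      ⟨by linarith, hr'⟩
    have ht' : s + t ∈ Set.Ioo (s - r') (s + r') := ⟨by linarith [ht.1], by linarith [ht.2]⟩
    have h1 : HasDerivAt (fun t : ℝ => (fun i => V i j (s + t) z : Fin (N + 1) → ℂ)) (fun i => V i (j + 1) (s + t) z) t := by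
      rw [hasDerivAt_pi]
      intro i
      have h2 := (hVJ i).der j (s + t) ht' z hzr'
      exact h2.comp_const_add s t
    exact ((PiLp.continuousLinearEquiv 2 ℝ (fun _ : Fin (N + 1) => ℂ)).symm : (Fin (N + 1) → ℂ) →L[ℝ] EN N).hasFDerivAt.comp_hasDerivAt t h1
  -- the curve
  obtain ⟨C, δ, M, hδ, hC, hM, hclose⟩ := crv_close B m
  have hq : Jt m w s z ∈ OD b ν a c ρ m := hcz0
  obtain ⟨hcan, -⟩ := crv_dir B.str hq
  have hc0 : crv b ν a χ c ρ (Jt m w s z) 0 = χ.σ (cz b ν a c ρ (w 0 s z) s z) := by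
    unfold crv
    rw [pol_zero, add_zero]
    rfl
  obtain ⟨κ, hκd⟩ : ∃ κ, κ = ‖(inner ℂ v (χ.σ (cz b ν a c ρ (w 0 s z) s z)) : ℂ)‖ / 2 := ⟨_, rfl⟩
  have hκ : 0 < κ := by rw [hκd]; exact half_pos (norm_pos_iff.2 hv)
  have hin : AnalyticAt ℂ (fun t => (inner ℂ v (crv b ν a χ c ρ (Jt m w s z) t) : ℂ)) 0 :=
    AnalyticAt.fun_comp (g := fun x : EN N => (inner ℂ v x : ℂ)) ((innerSL ℂ v).analyticAt _) hcan
  have hin0 : (inner ℂ v (crv b ν a χ c ρ (Jt m w s z) 0) : ℂ) ≠ 0 := by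
    rw [hc0]
    exact hv
  have hnc : AnalyticAt ℂ (fun t => (inner ℂ v (crv b ν a χ c ρ (Jt m w s z) t) : ℂ)⁻¹ • crv b ν a χ c ρ (Jt m w s z) t) 0 := (hin.inv hin0).smul hcan
  have hk1 : ∀ᶠ t : ℝ in 𝓝 0, κ < ‖(inner ℂ v (crv b ν a χ c ρ (Jt m w s z) t) : ℂ)‖ := by
    have h1 : ContinuousAt (fun t : ℝ => ‖(inner ℂ v (crv b ν a χ c ρ (Jt m w s z) (t : ℂ)) : ℂ)‖) 0 := by
      have h2 : ContinuousAt (fun t : ℝ => (t : ℂ)) 0 := Complex.continuous_ofReal.continuousAt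
      have h3 : ContinuousAt (fun t : ℂ => ‖(inner ℂ v (crv b ν a χ c ρ (Jt m w s z) t) : ℂ)‖) ((0 : ℝ) : ℂ) := by
        rw [Complex.ofReal_zero]
        exact hin.continuousAt.norm
      exact ContinuousAt.comp (g := fun t : ℂ => ‖(inner ℂ v (crv b ν a χ c ρ (Jt m w s z) t) : ℂ)‖) (f := fun t : ℝ => (t : ℂ)) h3 h2
    refine h1.eventually_const_lt ?_
    show κ < ‖(inner ℂ v (crv b ν a χ c ρ (Jt m w s z) ((0 : ℝ) : ℂ)) : ℂ)‖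
    rw [Complex.ofReal_zero, hc0, hκd]
    have := norm_pos_iff.2 hv
    linarith
  have hk2 : ∀ᶠ t : ℝ in 𝓝 0, κ < ‖(inner ℂ v (psi b ν a χ c ρ w s z t) : ℂ)‖ := by
    have h1 : Tendsto (fun t : ℝ => ((s + t, z) : ℝ × ℂ)) (𝓝 0) (𝓝 (s, z)) := by
      have h2 : Continuous fun t : ℝ => ((s + t, z) : ℝ × ℂ) := by fun_prop
      have h3 := h2.tendsto 0
      rwa [add_zero] at h3
    have h4 := hσc.norm.eventually_const_lt (show κ < ‖(inner ℂ v (χ.σ (cz b ν a c ρ (w 0 s z) s z)) : ℂ)‖ by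
      rw [hκd]
      have := norm_pos_iff.2 hv
      linarith)
    exact h1.eventually h4
  obtain ⟨δ₁, hδ₁, hk⟩ := Metric.eventually_nhds_iff_ball.1 (hk1.and hk2)
  -- Taylor
  have hT : ∀ i : Fin (N + 1), ∃ C δ : ℝ, 0 < δ ∧ ∀ t ∈ Set.Ioo (0 : ℝ) δ, ‖V i 0 (s + t) z - pol (fun j : Fin (m + 1) => V i j s z) (t : ℂ)‖ ≤ C * t ^ (m + 1) := fun i =>
    taylor_bound (f := fun j t => V i j t z) hr' (fun j t ht => (hVJ i).der j t ht z hzr') m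
  choose Ci δi hδi hTi using hT
  obtain ⟨δ₂, hδ₂, hδ₂i⟩ : ∃ δ₂ : ℝ, 0 < δ₂ ∧ ∀ i, δ₂ ≤ δi i := by
    refine ⟨Finset.univ.inf' Finset.univ_nonempty δi, ?_, fun i => Finset.inf'_le _ (Finset.mem_univ i)⟩
    rw [Finset.lt_inf'_iff]
    exact fun i _ => hδi i
  obtain ⟨δ₃, hδ₃d⟩ : ∃ δ₃, δ₃ = min (min δ δ₁) (min δ₂ r') := ⟨_, rfl⟩
  have hδ₃ : 0 < δ₃ := by rw [hδ₃d]; exact lt_min (lt_min hδ hδ₁) (lt_min hδ₂ hr')
  have hl1 : δ₃ ≤ δ := by rw [hδ₃d]; exact (min_le_left _ _).trans (min_le_left _ _)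
  have hl2 : δ₃ ≤ δ₁ := by rw [hδ₃d]; exact (min_le_left _ _).trans (min_le_right _ _)
  have hl3 : δ₃ ≤ δ₂ := by rw [hδ₃d]; exact (min_le_right _ _).trans (min_le_left _ _)
  have hl4 : δ₃ ≤ r' := by rw [hδ₃d]; exact (min_le_right _ _).trans (min_le_right _ _)
  have hjet := jt_eq_of_bound (m := m) hnc (vpol_analytic fun i (j : Fin (m + 1)) => V i j s z)
    (C := (κ⁻¹ + κ⁻¹ * κ⁻¹ * ‖v‖ * M) * C + ∑ i, Ci i) (δ := δ₃) hδ₃ (fun t ht => by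
    have ht0 : 0 < t := ht.1
    have h1 := hclose t ⟨ht0, ht.2.trans_le hl1⟩
    have h2 := hk t (by rw [mem_ball, Real.dist_eq, sub_zero, abs_of_pos ht0]; exact ht.2.trans_le hl2)
    have h3 := (hnv t ⟨by linarith, ht.2.trans_le hl4⟩)
    have h4 := quot_close hκ h2.1.le h2.2.le h1.2.2
    have h5 : ‖(inner ℂ v (psi b ν a χ c ρ w s z t) : ℂ)⁻¹ • psi b ν a χ c ρ w s z t - vpol (fun i (j : Fin (m + 1)) => V i j s z) t‖ ≤ (∑ i, Ci i) * t ^ (m + 1) := by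
      rw [← h3.1, h3.2, Finset.sum_mul]
      refine (norm_le_coord _).trans (Finset.sum_le_sum fun i _ => ?_)
      exact hTi i t ⟨ht0, ht.2.trans_le (hl3.trans (hδ₂i i))⟩
    have h6 : (κ⁻¹ + κ⁻¹ * κ⁻¹ * ‖v‖ * M) * ‖crv b ν a χ c ρ (Jt m w s z) (t : ℂ) - psi b ν a χ c ρ w s z t‖ ≤
        (κ⁻¹ + κ⁻¹ * κ⁻¹ * ‖v‖ * M) * (C * t ^ (m + 1)) :=
      mul_le_mul_of_nonneg_left h1.1 (by positivity)
    have h7 := norm_sub_le_norm_sub_add_norm_sub ((inner ℂ v (crv b ν a χ c ρ (Jt m w s z) (t : ℂ)) : ℂ)⁻¹ • crv b ν a χ c ρ (Jt m w s z) (t : ℂ))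
      ((inner ℂ v (psi b ν a χ c ρ w s z t) : ℂ)⁻¹ • psi b ν a χ c ρ w s z t) (vpol (fun i (j : Fin (m + 1)) => V i j s z) t)
    calc _ ≤ _ := h7
      _ ≤ (κ⁻¹ + κ⁻¹ * κ⁻¹ * ‖v‖ * M) * (C * t ^ (m + 1)) + (∑ i, Ci i) * t ^ (m + 1) := add_le_add (h4.trans h6) h5
      _ = _ := by ring)
  rw [hjet, hiter]
  ext i
  rw [vpol_jet]
  show V i j s z = V i j (s + 0) z
  rw [add_zero]

end Pool.Agent.G4.C
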